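import Mathlib
import Pool.Agent.R616.Pattern

/-!
# A formula with the fractional Helly property and many 1-inconsistent types

Q1 of MP_f4a2a6_lc: let `φ(x, y)` be a formula with FHP in a complete theory; is `f_φ` polynomially
bounded?  The answer is no.

Take infinitely many disjoint copies of the half graph (`a_i ~ b_j` iff `i < j`).  The structure `M`
consists of the vertices and of the finite sets of vertices; `φ(x, y)` says that `x` is a finite
independent set and `y` is one of its elements.  All left vertices are consistent, and all right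
vertices are consistent, so that among `n` nonempty instances there are always `n / 2` with a common
point.  But in `D` copies of the half graph with `2 n` vertices each there are `n ^ D` independent
sets with `2 D` elements any two of which are joined by an edge.
-/

namespace Pool.Agent.Results.MP_f4a2a6_lc.FHPNotPolynomial

open FirstOrder Language Pool.Agent.R616.Pattern

universe u

section Definitions

variable {L : FirstOrder.Language.{0, 0}} {X Y : Type}

/-- The set `φ(N, b)` of all solutions in `N` of the formula `φ(x, b)`. -/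
def inst (φ : L.Formula (X ⊕ Y)) (N : Type u) [L.Structure N] (b : Y → N) : Set (X → N) :=
  {a | φ.Realize (Sum.elim a b)}

/-- The number of `k`-element sets `J` of indices for which the sets `φ(N, b i)`, `i ∈ J`, have a
common element. -/
noncomputable def consCount (φ : L.Formula (X ⊕ Y)) (N : Type u) [L.Structure N] (k : ℕ) {n : ℕ}
    (b : Fin n → Y → N) : ℕ :=
  Nat.card {J : Finset (Fin n) // J.card = k ∧ (⋂ i ∈ J, inst φ N (b i)).Nonempty}

/-- The condition `FHP(k, α, β)` for `n` sets of the family of all instances of `φ` in `N`. -/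
def FHPWith (φ : L.Formula (X ⊕ Y)) (N : Type u) [L.Structure N] (k n : ℕ) (α β : ℝ) : Prop :=
  ∀ b : Fin n → Y → N, α * (n.choose k : ℝ) ≤ (consCount φ N k b : ℝ) →
    ∃ J : Finset (Fin n), β * (n : ℝ) ≤ (J.card : ℝ) ∧ (⋂ i ∈ J, inst φ N (b i)).Nonempty

/-- The fractional Helly property of `φ` in `N`. -/
def FHP (φ : L.Formula (X ⊕ Y)) (N : Type u) [L.Structure N] : Prop :=
  ∃ k : ℕ, 1 ≤ k ∧ ∀ α : ℝ, 0 < α → ∃ β : ℝ, 0 < β ∧ ∀ n : ℕ, FHPWith φ N k n α β

/-- `S` is a set of pairwise 1-inconsistent consistent types `{φ(x, a i) : i < k}` over `A`; a type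
is given by the set `P = {a i : i < k}` of its parameters. -/
structure IsFamily (φ : L.Formula (X ⊕ Y)) (N : Type u) [L.Structure N] (k : ℕ)
    (A : Finset (Y → N)) (S : Finset (Finset (Y → N))) : Prop where
  types : ∀ P ∈ S, ∃ a : Fin k → Y → N, (∀ i, a i ∈ A) ∧ (P : Set (Y → N)) = Set.range a ∧
    (⋂ i, inst φ N (a i)).Nonempty
  inconsistent : ∀ P ∈ S, ∀ Q ∈ S, P ≠ Q → ∃ a ∈ P, ∃ b ∈ Q, inst φ N a ∩ inst φ N b = ∅

/-- The function `f_φ(k, l)`, computed in `N`. -/
noncomputable def f (φ : L.Formula (X ⊕ Y)) (N : Type u) [L.Structure N] (k l : ℕ) : ℕ :=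
  sSup {m | ∃ (A : Finset (Y → N)) (S : Finset (Finset (Y → N))), A.card = l ∧
    IsFamily φ N k A S ∧ S.card = m}

/-- `f_φ` is polynomially bounded. -/
def PolyBounded (φ : L.Formula (X ⊕ Y)) (N : Type u) [L.Structure N] : Prop :=
  ∃ d : ℕ, ∀ k : ℕ, 1 ≤ k → ∃ C : ℕ, ∀ l : ℕ, k ≤ l → f φ N k l ≤ C * l ^ d

end Definitions

section General

variable {L : FirstOrder.Language.{0, 0}} {X Y : Type}

lemma nonempty_iff {I : Type} (φ : L.Formula (X ⊕ Y)) (N : Type u) [L.Structure N]
    (b : I → Y → N) (J : Finset I) :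
    (⋂ i ∈ J, inst φ N (b i)).Nonempty ↔ Cons φ N b (J : Set I) := by
  simp only [Set.Nonempty, Set.mem_iInter, inst, Cons, Finset.mem_coe]
  rfl

lemma cons_mono {I : Type} {φ : L.Formula (X ⊕ Y)} {N : Type u} [L.Structure N]
    {b : I → Y → N} {J K : Set I} (h : Cons φ N b K) (hJ : J ⊆ K) : Cons φ N b J := by
  obtain ⟨a, ha⟩ := h
  exact ⟨a, fun i hi => ha i (hJ hi)⟩

lemma mul_choose_le {m n k : ℕ} (hmn : m ≤ n) (hk : 1 ≤ k) :
    n * m.choose k ≤ m * n.choose k := by
  obtain ⟨j, rfl⟩ : ∃ j, k = j + 1 := ⟨k - 1, by omega⟩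
  rcases m with _ | m
  · simp
  · obtain ⟨n, rfl⟩ : ∃ n', n = n' + 1 := ⟨n - 1, by omega⟩
    have h1 := Nat.add_one_mul_choose_eq m j
    have h2 := Nat.add_one_mul_choose_eq n j
    have h3 : m.choose j ≤ n.choose j := Nat.choose_le_choose j (by omega)
    have h4 : (n + 1) * (m + 1).choose (j + 1) * (j + 1) ≤
        (m + 1) * (n + 1).choose (j + 1) * (j + 1) := by
      calc (n + 1) * (m + 1).choose (j + 1) * (j + 1)
          = (n + 1) * ((m + 1).choose (j + 1) * (j + 1)) := by ring
        _ = (n + 1) * ((m + 1) * m.choose j) := by rw [← h1]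
        _ ≤ (n + 1) * ((m + 1) * n.choose j) := by gcongr
        _ = (m + 1) * ((n + 1) * n.choose j) := by ring
        _ = (m + 1) * ((n + 1).choose (j + 1) * (j + 1)) := by rw [← h2]
        _ = (m + 1) * (n + 1).choose (j + 1) * (j + 1) := by ring
    exact Nat.le_of_mul_le_mul_right h4 (Nat.succ_pos j)

open Classical in
lemma consCount_le (φ : L.Formula (X ⊕ Y)) (N : Type u) [L.Structure N] (k : ℕ) {n : ℕ}
    (b : Fin n → Y → N) :
    consCount φ N k b ≤ ((Finset.univ.filter (fun i => Cons φ N b {i})).card).choose k := by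
  rw [← Finset.card_powersetCard]
  unfold consCount
  rw [Nat.card_eq_fintype_card, Fintype.card_subtype]
  refine Finset.card_le_card fun J hJ => ?_
  rw [Finset.mem_filter] at hJ
  rw [Finset.mem_powersetCard]
  refine ⟨fun i hi => ?_, hJ.2.1⟩
  rw [Finset.mem_filter]
  refine ⟨Finset.mem_univ _, ?_⟩
  refine cons_mono ((nonempty_iff φ N b J).1 hJ.2.2) ?_
  simpa using hi

open Classical in
/-- If one half of the consistent parameters is always consistent, then `FHP(k, α, α / 2)` holds. -/
lemma fhp_of_half (φ : L.Formula (X ⊕ Y)) (N : Type u) [L.Structure N] [Nonempty N]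
    (h : ∀ (n : ℕ) (b : Fin n → Y → N), ∃ J : Finset (Fin n),
      (Finset.univ.filter (fun i => Cons φ N b {i})).card ≤ 2 * J.card ∧
        Cons φ N b (J : Set (Fin n))) {k n : ℕ} (hk : 1 ≤ k) (hn : k ≤ n ∨ k = 1) (α : ℝ) :
    FHPWith φ N k n α (α / 2) := by
  intro b hb
  rcases Nat.lt_or_ge n k with hnk | hnk
  · have h1 : n = 0 := by omega
    subst h1
    refine ⟨∅, by simp, ?_⟩
    simp
  · obtain ⟨J, hJ, hc⟩ := h n b
    refine ⟨J, ?_, (nonempty_iff φ N b J).2 hc⟩
    set m := (Finset.univ.filter (fun i => Cons φ N b {i})).card with hm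
    have hmn : m ≤ n := by
      have := Finset.card_le_univ (Finset.univ.filter (fun i : Fin n => Cons φ N b {i}))
      simpa using this
    have h1 : (consCount φ N k b : ℝ) ≤ (m.choose k : ℝ) := by
      exact_mod_cast consCount_le φ N k b
    have h2 : ((n : ℝ) * (m.choose k : ℝ)) ≤ (m : ℝ) * (n.choose k : ℝ) := by
      exact_mod_cast mul_choose_le hmn hk
    have h3 : (0 : ℝ) < (n.choose k : ℝ) := by
      exact_mod_cast Nat.choose_pos hnk
    have h4 : (α * n) * (n.choose k : ℝ) ≤ (m : ℝ) * (n.choose k : ℝ) := by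
      calc (α * n) * (n.choose k : ℝ) = n * (α * (n.choose k : ℝ)) := by ring
        _ ≤ n * (m.choose k : ℝ) := by
            refine mul_le_mul_of_nonneg_left (hb.trans h1) (Nat.cast_nonneg n)
        _ ≤ _ := h2
    have h5 : α * n ≤ m := le_of_mul_le_mul_right h4 h3
    have h6 : (m : ℝ) ≤ 2 * (J.card : ℝ) := by exact_mod_cast hJ
    linarith

lemma IsFamily.card_le {φ : L.Formula (X ⊕ Y)} {N : Type u} [L.Structure N] {k : ℕ}
    {A : Finset (Y → N)} {S : Finset (Finset (Y → N))} (h : IsFamily φ N k A S) :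
    S.card ≤ 2 ^ A.card := by
  classical
  rw [← Finset.card_powerset]
  refine Finset.card_le_card fun P hP => ?_
  rw [Finset.mem_powerset]
  obtain ⟨a, ha, hr, -⟩ := h.types P hP
  intro p hp
  have : p ∈ Set.range a := by
    rw [← hr]
    exact hp
  obtain ⟨i, rfl⟩ := this
  exact ha i

lemma le_f {φ : L.Formula (X ⊕ Y)} {N : Type u} [L.Structure N] {k : ℕ}
    {A : Finset (Y → N)} {S : Finset (Finset (Y → N))} (h : IsFamily φ N k A S) :
    S.card ≤ f φ N k A.card := by
  refine le_csSup ⟨2 ^ A.card, ?_⟩ ⟨A, S, rfl, h, rfl⟩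
  rintro m ⟨A', S', hA, hS, rfl⟩
  rw [← hA]
  exact hS.card_le

end General

/-! ### The structure -/

/-- The language with one binary relation symbol. -/
inductive Rel : ℕ → Type
  | e : Rel 2

/-- The language with one binary relation symbol. -/
def lang : FirstOrder.Language.{0, 0} := ⟨fun _ => Empty, Rel⟩

/-- The vertices `(side, copy, index)` of infinitely many copies of the half graph. -/
abbrev V : Type := Bool × ℕ × ℕ

/-- The edges of the half graphs. -/
def conf (a b : V) : Prop := a.1 = false ∧ b.1 = true ∧ a.2.1 = b.2.1 ∧ a.2.2 < b.2.2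

/-- The finite independent sets. -/
def Indep (F : Finset V) : Prop := ∀ a ∈ F, ∀ b ∈ F, ¬ conf a b

/-- The universe: finite sets of vertices, and vertices. -/
def M : Type := Finset V ⊕ V

instance : Nonempty M := ⟨Sum.inl ∅⟩

instance : lang.Structure M where
  funMap g := Empty.elim g
  RelMap {n} r x :=
    match n, r with
    | 2, Rel.e => ∃ (F : Finset V) (w : V), x 0 = Sum.inl F ∧ x 1 = Sum.inr w ∧ w ∈ F ∧ Indep F

/-- The relation symbol. -/
def eRel : lang.Relations 2 := Rel.e

/-- The formula `E(x, y)`. -/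
def phi : lang.Formula (Unit ⊕ Unit) :=
  Relations.formula₂ eRel (Term.var (Sum.inl ())) (Term.var (Sum.inr ()))

lemma realize_phi (a b : Unit → M) :
    phi.Realize (Sum.elim a b) ↔ ∃ (F : Finset V) (w : V), a () = Sum.inl F ∧ b () = Sum.inr w ∧
      w ∈ F ∧ Indep F := by
  unfold phi
  rw [Formula.realize_rel₂]
  rfl

lemma cons_iff {I : Type} (b : I → Unit → M) (J : Set I) :
    Cons phi M b J ↔ ∃ F : Finset V, Indep F ∧ ∀ i ∈ J, ∃ w ∈ F, b i () = Sum.inr w := by
  constructor
  · rintro ⟨a, ha⟩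
    rcases J.eq_empty_or_nonempty with hJ | ⟨j, hj⟩
    · refine ⟨∅, ?_, ?_⟩
      · intro x hx
        simp at hx
      · intro i hi
        rw [hJ] at hi
        exact absurd hi (Set.notMem_empty i)
    · obtain ⟨F, w, h1, h2, h3, h4⟩ := (realize_phi a (b j)).1 (ha j hj)
      refine ⟨F, h4, fun i hi => ?_⟩
      obtain ⟨F', w', h1', h2', h3', h4'⟩ := (realize_phi a (b i)).1 (ha i hi)
      have : F' = F := Sum.inl_injective (h1'.symm.trans h1)
      subst this
      exact ⟨w', h3', h2'⟩
  · rintro ⟨F, hF, h⟩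
    refine ⟨fun _ => Sum.inl F, fun i hi => ?_⟩
    obtain ⟨w, hw, hb⟩ := h i hi
    exact (realize_phi _ _).2 ⟨F, w, rfl, hb, hw, hF⟩

/-- The vertex coded by an element. -/
def getV : M → V := Sum.elim (fun _ => (false, 0, 0)) id

open Classical in
lemma half (n : ℕ) (b : Fin n → Unit → M) : ∃ J : Finset (Fin n),
      (Finset.univ.filter (fun i => Cons phi M b {i})).card ≤ 2 * J.card ∧
        Cons phi M b (J : Set (Fin n)) := by
  let K : Bool → Finset (Fin n) := fun s =>
    Finset.univ.filter (fun i => ∃ w : V, b i () = Sum.inr w ∧ w.1 = s)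
  have hK : ∀ s, Cons phi M b (K s : Set (Fin n)) := by
    intro s
    rw [cons_iff]
    refine ⟨(K s).image (fun i => getV (b i ())), ?_, fun i hi => ?_⟩
    · intro x hx y hy hc
      rw [Finset.mem_image] at hx hy
      obtain ⟨i, hi, rfl⟩ := hx
      obtain ⟨j, hj, rfl⟩ := hy
      rw [Finset.mem_filter] at hi hj
      obtain ⟨-, w, hw, hs⟩ := hi
      obtain ⟨-, w', hw', hs'⟩ := hj
      have h1 := hc.1
      have h2 := hc.2.1
      rw [hw] at h1
      rw [hw'] at h2
      have h1' : w.1 = false := h1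
      have h2' : w'.1 = true := h2
      rw [hs] at h1'
      rw [hs', h1'] at h2'
      exact absurd h2' (by decide)
    · have hi' := (Finset.mem_filter.1 hi).2
      obtain ⟨w, hw, -⟩ := hi'
      refine ⟨getV (b i ()), Finset.mem_image_of_mem _ hi, ?_⟩
      rw [hw]
      rfl
  have hsub : Finset.univ.filter (fun i => Cons phi M b {i}) ⊆ K false ∪ K true := by
    intro i hi
    have h1 := (Finset.mem_filter.1 hi).2
    rw [cons_iff] at h1
    obtain ⟨F, -, h2⟩ := h1
    obtain ⟨w, -, hw⟩ := h2 i rfl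
    rw [Finset.mem_union, Finset.mem_filter, Finset.mem_filter]
    rcases hs : w.1 with _ | _
    · exact Or.inl ⟨Finset.mem_univ _, w, hw, hs⟩
    · exact Or.inr ⟨Finset.mem_univ _, w, hw, hs⟩
  have hcard := (Finset.card_le_card hsub).trans (Finset.card_union_le _ _)
  rcases Nat.le_total (K false).card (K true).card with h | h
  · exact ⟨K true, by omega, hK true⟩
  · exact ⟨K false, by omega, hK false⟩

/-! ### Models of the theory -/

section Models

variable (N : Type u) [lang.Structure N] [N ⊨ lang.completeTheory M]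

open Classical in
lemma halfN (n : ℕ) (b : Fin n → Unit → N) : ∃ J : Finset (Fin n),
      (Finset.univ.filter (fun i => Cons phi N b {i})).card ≤ 2 * J.card ∧
        Cons phi N b (J : Set (Fin n)) := by
  obtain ⟨b', h1, -⟩ := pattern (M := M) (N := N)
    (fun s hs => (realize_iff_of_model_completeTheory M N s).1 hs) phi b
  obtain ⟨J, h2, h3⟩ := half n b'
  refine ⟨J, ?_, (h1 _).1 h3⟩
  have : Finset.univ.filter (fun i => Cons phi N b {i}) =
      Finset.univ.filter (fun i => Cons phi M b' {i}) := by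
    ext i
    simp [h1]
  rw [this]
  exact h2

lemma lower {D n : ℕ} : n ^ D ≤ f phi N (2 * D) (2 * D * n) := by
  classical
  let b0 : (Bool × Fin D × Fin n) → Unit → M := fun p _ => Sum.inr (p.1, (p.2.1 : ℕ), (p.2.2 : ℕ))
  obtain ⟨b, hb, hbe⟩ := pattern (M := N) (N := M)
    (fun s hs => (realize_iff_of_model_completeTheory M N s).2 hs) phi b0
  have hinj : Function.Injective b := by
    intro p q hpq
    have h1 := congrFun ((hbe p q).1 hpq) ()
    have h2 : ((p.1, (p.2.1 : ℕ), (p.2.2 : ℕ)) : V) = (q.1, (q.2.1 : ℕ), (q.2.2 : ℕ)) :=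
      Sum.inr_injective h1
    rw [Prod.mk.injEq, Prod.mk.injEq] at h2
    exact Prod.ext h2.1 (Prod.ext (Fin.ext h2.2.1) (Fin.ext h2.2.2))
  -- the types
  let P : (Fin D → Fin n) → Finset (Unit → N) := fun g =>
    (Finset.univ : Finset (Bool × Fin D)).image (fun p => b (p.1, p.2, g p.2))
  have hcons : ∀ g : Fin D → Fin n,
      Cons phi N b (Set.range (fun p : Bool × Fin D => (p.1, p.2, g p.2))) := by
    intro g
    rw [hb, cons_iff]
    refine ⟨(Finset.univ : Finset (Bool × Fin D)).image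
      (fun p => (p.1, (p.2 : ℕ), (g p.2 : ℕ))), ?_, ?_⟩
    · intro x hx y hy hc
      rw [Finset.mem_image] at hx hy
      obtain ⟨p, -, rfl⟩ := hx
      obtain ⟨q, -, rfl⟩ := hy
      obtain ⟨-, -, h3, h4⟩ := hc
      have h3' : p.2 = q.2 := Fin.ext h3
      rw [h3'] at h4
      exact lt_irrefl _ h4
    · rintro i ⟨p, rfl⟩
      exact ⟨(p.1, (p.2 : ℕ), (g p.2 : ℕ)), Finset.mem_image.2 ⟨p, Finset.mem_univ _, rfl⟩, rfl⟩
  have hinc : ∀ (c : Fin D) (i j : Fin n), i < j →
      inst phi N (b (false, c, i)) ∩ inst phi N (b (true, c, j)) = ∅ := by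
    intro c i j hij
    rw [Set.eq_empty_iff_forall_notMem]
    rintro a ⟨ha1, ha2⟩
    have h1 : Cons phi N b {(false, c, i), (true, c, j)} := by
      refine ⟨a, ?_⟩
      rintro p (rfl | hp)
      · exact ha1
      · rw [Set.mem_singleton_iff] at hp
        subst hp
        exact ha2
    rw [hb, cons_iff] at h1
    obtain ⟨F, hF, h2⟩ := h1
    obtain ⟨w, hw, e1⟩ := h2 (false, c, i) (Or.inl rfl)
    obtain ⟨w', hw', e2⟩ := h2 (true, c, j) (Or.inr rfl)
    have e1' : ((false, (c : ℕ), (i : ℕ)) : V) = w := Sum.inr_injective e1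
    have e2' : ((true, (c : ℕ), (j : ℕ)) : V) = w' := Sum.inr_injective e2
    subst e1' e2'
    exact hF _ hw _ hw' ⟨rfl, rfl, rfl, hij⟩
  have hne : ∀ g h : Fin D → Fin n, g ≠ h → ∃ a ∈ P g, ∃ a' ∈ P h,
      inst phi N a ∩ inst phi N a' = ∅ := by
    intro g h hgh
    obtain ⟨c, hc⟩ := Function.ne_iff.1 hgh
    rcases lt_or_gt_of_ne hc with hlt | hlt
    · refine ⟨b (false, c, g c), ?_, b (true, c, h c), ?_, hinc c _ _ hlt⟩
      · exact Finset.mem_image.2 ⟨(false, c), Finset.mem_univ _, rfl⟩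
      · exact Finset.mem_image.2 ⟨(true, c), Finset.mem_univ _, rfl⟩
    · refine ⟨b (true, c, g c), ?_, b (false, c, h c), ?_, ?_⟩
      · exact Finset.mem_image.2 ⟨(true, c), Finset.mem_univ _, rfl⟩
      · exact Finset.mem_image.2 ⟨(false, c), Finset.mem_univ _, rfl⟩
      · rw [Set.inter_comm]
        exact hinc c _ _ hlt
  have hPinj : Function.Injective P := by
    intro g h hgh
    by_contra hcon
    obtain ⟨a, ha, a', ha', hemp⟩ := hne g h hcon
    rw [← hgh] at ha'
    obtain ⟨p, -, rfl⟩ := Finset.mem_image.1 ha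
    obtain ⟨q, -, rfl⟩ := Finset.mem_image.1 ha'
    obtain ⟨x, hx⟩ := hcons g
    have : x ∈ inst phi N (b (p.1, p.2, g p.2)) ∩ inst phi N (b (q.1, q.2, g q.2)) :=
      ⟨hx _ ⟨p, rfl⟩, hx _ ⟨q, rfl⟩⟩
    rw [hemp] at this
    exact this
  let A : Finset (Unit → N) := Finset.univ.image b
  have hA : A.card = 2 * D * n := by
    rw [Finset.card_image_of_injective _ hinj, Finset.card_univ]
    simp [Fintype.card_prod, mul_assoc]
  let S : Finset (Finset (Unit → N)) := Finset.univ.image P
  have hS : S.card = n ^ D := by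
    rw [Finset.card_image_of_injective _ hPinj, Finset.card_univ]
    simp
  have e : Fin (2 * D) ≃ Bool × Fin D := (Fintype.equivFinOfCardEq (by simp)).symm
  have hfam : IsFamily phi N (2 * D) A S := by
    refine ⟨?_, ?_⟩
    · intro Q hQ
      obtain ⟨g, -, rfl⟩ := Finset.mem_image.1 hQ
      refine ⟨fun i => b ((e i).1, (e i).2, g (e i).2), fun i => ?_, ?_, ?_⟩
      · exact Finset.mem_image_of_mem _ (Finset.mem_univ _)
      · ext x
        rw [Finset.mem_coe, Finset.mem_image]
        constructor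
        · rintro ⟨p, -, rfl⟩
          refine ⟨e.symm p, ?_⟩
          simp
        · rintro ⟨i, rfl⟩
          exact ⟨e i, Finset.mem_univ _, rfl⟩
      · obtain ⟨x, hx⟩ := hcons g
        refine ⟨x, ?_⟩
        rw [Set.mem_iInter]
        intro i
        exact hx _ ⟨e i, rfl⟩
    · intro Q hQ R hR hQR
      obtain ⟨g, -, rfl⟩ := Finset.mem_image.1 hQ
      obtain ⟨h, -, rfl⟩ := Finset.mem_image.1 hR
      exact hne g h (fun hgh => hQR (by rw [hgh]))
  have := le_f hfam
  rwa [hA, hS] at this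

lemma not_polyBounded : ¬ PolyBounded phi N := by
  rintro ⟨d, hd⟩
  obtain ⟨C, hC⟩ := hd (2 * (d + 1)) (by omega)
  set n := C * (2 * (d + 1)) ^ d + 1 with hn
  have h1 := lower N (D := d + 1) (n := n)
  have h2 := hC (2 * (d + 1) * n) (Nat.le_mul_of_pos_right _ (by omega))
  have h3 : n * n ^ d ≤ (C * (2 * (d + 1)) ^ d) * n ^ d := by
    calc n * n ^ d = n ^ (d + 1) := by ring
      _ ≤ C * (2 * (d + 1) * n) ^ d := h1.trans h2
      _ = (C * (2 * (d + 1)) ^ d) * n ^ d := by rw [mul_pow]; ring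
  have h4 : n ≤ C * (2 * (d + 1)) ^ d :=
    Nat.le_of_mul_le_mul_right h3 (pow_pos (by omega) d)
  omega

end Models

/-- There are a complete theory `T` and a formula `φ(x, y)` (in one variable `x` and one variable
`y`) such that in all models `N` of `T` (in particular in the monster model)

* `φ` has the fractional Helly property; for `k = 1`, and for all `k ≥ 1` and all `n ≥ k`, one can
  take `β = α / 2`;
* `f_φ(2 D, 2 D n) ≥ n ^ D` for all `D`, `n ≥ 1`;
* `f_φ` is not polynomially bounded. -/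
theorem result : ∃ (L : FirstOrder.Language.{0, 0}) (T : L.Theory) (φ : L.Formula (Unit ⊕ Unit)),
    T.IsComplete ∧ ∀ (N : Type u) [L.Structure N] [Nonempty N] [N ⊨ T],
      FHP φ N ∧
      (∀ (k n : ℕ) (α : ℝ), 1 ≤ k → k ≤ n → 0 < α → FHPWith φ N k n α (α / 2)) ∧
      (∀ D n : ℕ, 1 ≤ D → 1 ≤ n → n ^ D ≤ f φ N (2 * D) (2 * D * n)) ∧
      ¬ PolyBounded φ N := by
  refine ⟨lang, lang.completeTheory M, phi, completeTheory.isComplete lang M, ?_⟩
  intro N _ _ _
  refine ⟨⟨1, le_rfl, fun α hα => ⟨α / 2, by linarith, fun n => ?_⟩⟩, ?_, ?_, not_polyBounded N⟩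
  · exact fhp_of_half phi N (halfN N) le_rfl (Or.inr rfl) α
  · intro k n α hk hn hα
    exact fhp_of_half phi N (halfN N) hk (Or.inl hn) α
  · intro D n _ _
    exact lower N

end Pool.Agent.Results.MP_f4a2a6_lc.FHPNotPolynomial
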